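import Pool.Agent.Helper50_DP.Stmts

/-! LNS: lines through two nodes -/

set_option autoImplicit false

universe u

namespace Pool.Agent.Helper65DP

open Pool.Agent.DP Matrix

variable {k : Type u} [Field k]

theorem det3_eq (x y z : Fin 3 → k) : det3 x y z = x ⬝ᵥ (crossProduct y z) := by
  rw [triple_product_eq_det]
  rfl

/-- a vector with zero cross product with a nonzero vector is a multiple of it -/
theorem parallel {t M : Fin 3 → k} (ht : t ≠ 0) (h : crossProduct t M = 0) :
    ∃ c : k, M = c • t := by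
  rw [cross_apply] at h
  have h0 : t 1 * M 2 - t 2 * M 1 = 0 := congrFun h 0
  have h1 : t 2 * M 0 - t 0 * M 2 = 0 := congrFun h 1
  have h2 : t 0 * M 1 - t 1 * M 0 = 0 := congrFun h 2
  by_cases t0 : t 0 = 0
  · by_cases t1 : t 1 = 0
    · have t2 : t 2 ≠ 0 := by
        intro t2
        apply ht
        funext i
        fin_cases i
        · exact t0
        · exact t1
        · exact t2
      refine ⟨M 2 / t 2, ?_⟩
      funext i
      rw [Pi.smul_apply, smul_eq_mul, div_mul_eq_mul_div, eq_div_iff t2]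
      fin_cases i
      · show M 0 * t 2 = M 2 * t 0
        linear_combination h1
      · show M 1 * t 2 = M 2 * t 1
        linear_combination -h0
      · rfl
    · refine ⟨M 1 / t 1, ?_⟩
      funext i
      rw [Pi.smul_apply, smul_eq_mul, div_mul_eq_mul_div, eq_div_iff t1]
      fin_cases i
      · show M 0 * t 1 = M 1 * t 0
        linear_combination -h2
      · rfl
      · show M 2 * t 1 = M 1 * t 2
        linear_combination h0
  · refine ⟨M 0 / t 0, ?_⟩
    funext i
    rw [Pi.smul_apply, smul_eq_mul, div_mul_eq_mul_div, eq_div_iff t0]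
    fin_cases i
    · rfl
    · show M 1 * t 0 = M 0 * t 1
      linear_combination h2
    · show M 2 * t 0 = M 0 * t 2
      linear_combination -h1

/-- two different pairs have different points of intersection -/
theorem cross_ne {N : ℕ} {L : Fin N → Fin 3 → k} (hL : GenPos L) {i₁ j₁ i₂ j₂ : Fin N}
    (h₁ : i₁ < j₁) (h₂ : i₂ < j₂) (h : ¬ (i₁ = i₂ ∧ j₁ = j₂)) :
    crossProduct (crossProduct (L i₁) (L j₁)) (crossProduct (L i₂) (L j₂)) ≠ 0 := by
  intro h0
  -- an index of each pair outside the other one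
  obtain ⟨l, hl, hli, hlj⟩ : ∃ l, (l = i₂ ∨ l = j₂) ∧ l ≠ i₁ ∧ l ≠ j₁ := by
    by_cases a : i₂ ≠ i₁ ∧ i₂ ≠ j₁
    · exact ⟨i₂, Or.inl rfl, a.1, a.2⟩
    · refine ⟨j₂, Or.inr rfl, ?_, ?_⟩
      · rintro rfl
        apply a
        exact ⟨h₂.ne, (h₂.trans h₁).ne⟩
      · rintro rfl
        apply a
        refine ⟨?_, h₂.ne⟩
        rintro rfl
        exact h ⟨rfl, rfl⟩
  obtain ⟨l', hl', hli', hlj'⟩ : ∃ l, (l = i₁ ∨ l = j₁) ∧ l ≠ i₂ ∧ l ≠ j₂ := by
    by_cases a : i₁ ≠ i₂ ∧ i₁ ≠ j₂
    · exact ⟨i₁, Or.inl rfl, a.1, a.2⟩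
    · refine ⟨j₁, Or.inr rfl, ?_, ?_⟩
      · rintro rfl
        apply a
        exact ⟨h₁.ne, (h₁.trans h₂).ne⟩
      · rintro rfl
        apply a
        refine ⟨?_, h₁.ne⟩
        rintro rfl
        exact h ⟨rfl, rfl⟩
  have e2 : crossProduct (L i₂) (L j₂) ≠ 0 := by
    intro h3
    have h4 := hL i₂ j₂ l' h₂.ne hli' hlj'
    apply h4
    have h5 : det3 (L i₂) (L j₂) (L l') = det3 (L l') (L i₂) (L j₂) := by
      rw [det3_eq, det3_eq, triple_product_permutation, triple_product_permutation]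
    rw [h5, det3_eq, h3, dotProduct_zero]
  have h3 : crossProduct (crossProduct (L i₂) (L j₂)) (crossProduct (L i₁) (L j₁)) = 0 := by
    rw [← cross_anticomm, h0, neg_zero]
  obtain ⟨c, hc⟩ := parallel e2 h3
  have h4 := hL i₁ j₁ l h₁.ne hli hlj
  apply h4
  have h5 : det3 (L i₁) (L j₁) (L l) = det3 (L l) (L i₁) (L j₁) := by
    rw [det3_eq, det3_eq, triple_product_permutation, triple_product_permutation]
  rw [h5, det3_eq, hc, dotProduct_smul]
  have h6 : L l ⬝ᵥ crossProduct (L i₂) (L j₂) = 0 := by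
    rcases hl with rfl | rfl
    · exact dot_self_cross _ _
    · exact dot_cross_self _ _
  rw [h6, smul_zero]

/-- LNS -/
theorem lns : LnsStmt.{u} := by
  classical
  intro k _ N L hL
  let T : Finset (Fin 3 → k) := (Finset.univ.image fun p : (Fin N × Fin N) × (Fin N × Fin N) =>
    crossProduct (crossProduct (L p.1.1) (L p.1.2)) (crossProduct (L p.2.1) (L p.2.2))).filter
      (fun t => t ≠ 0)
  refine ⟨T, fun t ht => (Finset.mem_filter.mp ht).2, ?_⟩
  intro M _ hT _ i₁ j₁ i₂ j₂ h₁ h₂ hd₁ hd₂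
  by_contra hne
  have hx := cross_ne hL h₁ h₂ hne
  have hmem : crossProduct (crossProduct (L i₁) (L j₁)) (crossProduct (L i₂) (L j₂)) ∈ T := by
    refine Finset.mem_filter.mpr ⟨Finset.mem_image.mpr ⟨((i₁, j₁), (i₂, j₂)),
      Finset.mem_univ _, rfl⟩, hx⟩
  have hpar : crossProduct (crossProduct (crossProduct (L i₁) (L j₁))
      (crossProduct (L i₂) (L j₂))) M = 0 := by
    rw [cross_cross_eq_smul_sub_smul]
    rw [det3_eq, dotProduct_comm] at hd₁ hd₂
    rw [hd₁, hd₂, zero_smul, zero_smul, sub_zero]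
  obtain ⟨c, hc⟩ := parallel hx hpar
  exact hT _ hmem c hc

end Pool.Agent.Helper65DP
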